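import Pool.Agent.Lib.helper31.ExpPoly

set_option autoImplicit false

namespace Pool.Agent.Results.MP_84e5ad_an.OrbitIndependent

open Filter Topology Complex Pool.Agent.Lib.helper31.ExpPoly
open scoped NNReal

lemma eq_at {H K : ℂ → ℂ} {z : ℂ} (h1 : ContinuousAt H z) (h2 : ContinuousAt K z)
    (h : ∀ᶠ w in 𝓝[≠] z, H w = K w) : H z = K z :=
  tendsto_nhds_unique_of_eventuallyEq (h1.tendsto.mono_left nhdsWithin_le_nhds)
    (h2.tendsto.mono_left nhdsWithin_le_nhds) h

lemma sub_cont {X : Type} [NormedAddCommGroup X] (ψ : X → ℂ)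
    (hsub : ∀ x y, ψ (x - y) = ψ x - ψ y) (C : ℝ) (hC : ∀ x, ‖ψ x‖ ≤ C * ‖x‖) : Continuous ψ :=
  AddMonoidHomClass.continuous_of_bound (AddMonoidHom.ofMapSub ψ hsub) C hC

lemma kill {X : Type} [NormedAddCommGroup X] (o : ℝ≥0 → X) (ho : DenseRange o) (ψ : X → ℂ)
    (hsub : ∀ x y, ψ (x - y) = ψ x - ψ y) (C : ℝ) (hC : ∀ x, ‖ψ x‖ ≤ C * ‖x‖) (z : ℂ)
    (h : ∀ t, ψ (o t) = cexp (z * (t : ℝ)) * ψ (o 0)) : ∀ x, ψ x = 0 := by
  have hc := sub_cont ψ hsub C hC
  have hn : ∀ t, ‖ψ (o t)‖ = Real.exp (z.re * t) * ‖ψ (o 0)‖ := fun t => by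
    rw [h, norm_mul, Complex.norm_exp]; simp
  have up : ∀ B : ℝ, (∀ t, ‖ψ (o t)‖ ≤ B) → ∀ x, ψ x = 0 := by
    intro B hB x
    have h1 : ∀ y, ‖ψ y‖ ≤ B := fun y => ho.induction_on y (isClosed_le hc.norm continuous_const) hB
    by_contra hx
    have hpos : 0 < ‖ψ x‖ := norm_pos_iff.2 hx
    obtain ⟨n, hn⟩ := exists_nat_gt (B / ‖ψ x‖)
    have h2 := h1 (n • x)
    have e : ψ (n • x) = n • ψ x := map_nsmul (AddMonoidHom.ofMapSub ψ hsub) n x
    rw [e, nsmul_eq_mul, norm_mul, Complex.norm_natCast] at h2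
    rw [div_lt_iff₀ hpos] at hn
    linarith
  rcases le_total z.re 0 with hz | hz
  · refine up ‖ψ (o 0)‖ fun t => ?_
    rw [hn]
    exact mul_le_of_le_one_left (norm_nonneg _)
      (Real.exp_le_one_iff.2 (mul_nonpos_of_nonpos_of_nonneg hz t.2))
  · have h1 : ‖ψ (o 0)‖ ≤ ‖ψ 0‖ := by
      refine ho.induction_on (p := fun y => ‖ψ (o 0)‖ ≤ ‖ψ y‖) 0
        (isClosed_le continuous_const hc.norm) fun t => ?_
      rw [hn t]
      exact le_mul_of_one_le_left (norm_nonneg _) (Real.one_le_exp (mul_nonneg hz t.2))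
    have h2 := hC 0
    rw [norm_zero, mul_zero] at h2
    have h3 : ‖ψ (o 0)‖ = 0 := le_antisymm (h1.trans h2) (norm_nonneg _)
    exact up 0 fun t => by rw [hn, h3, mul_zero]

theorem core {X ι : Type} [NormedAddCommGroup X] [Fintype ι] (a : ι → ℂ) (s : ι → ℝ)
    (hs : ∀ i, 0 < s i) (j : ι) (hj : a j ≠ 0) (hmax : ∀ i, i ≠ j → s i < s j)
    (u : X → ℝ → ℂ) (hc : ∀ x, Continuous (u x)) (hsub : ∀ x y r, u (x - y) r = u x r - u y r)
    (M : ℝ) (hb : ∀ x r, 0 ≤ r → r ≤ s j → ‖u x r‖ ≤ M * ‖x‖)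
    (hrel : ∀ x r, 0 ≤ r → u x r = ∑ i, a i * u x (r + s i))
    (o : ℝ≥0 → X) (ho : DenseRange o) (hsh : ∀ (t : ℝ≥0) r, 0 ≤ r → u (o t) r = u (o 0) (r + t)) :
    ∀ x, u x 0 = 0 := by
  have hS : ∀ i, s i ≤ s j := fun i => by
    by_cases h : i = j
    · rw [h]
    · exact (hmax i h).le
  set p := pw a s 1 with hp
  have pd : Differentiable ℂ p := pw_diff a s 1
  let F : X → ℂ → ℂ := fun x => Ftr a s (u x)
  have Fd : ∀ x, Differentiable ℂ (F x) := fun x => Ftr_diff a s _ (hc x)
  have Fb : ∀ x z, ‖F x z‖ ≤ (∑ i, ‖a i‖ * s i) * (M * ‖x‖) * Real.exp (max z.re 0 * s j) :=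
    fun x z => Ftr_bound a s hs (s j) hS _ _ (hb x) z
  have Fs : ∀ x y z, F (x - y) z = F x z - F y z := by
    intro x y z
    simp only [F, Ftr, Eint, hsub, mul_sub]
    rw [← Finset.sum_sub_distrib]
    refine Finset.sum_congr rfl fun i _ => ?_
    have := hc x
    have := hc y
    rw [intervalIntegral.integral_sub (Continuous.intervalIntegrable (by fun_prop) _ _)
      (Continuous.intervalIntegrable (by fun_prop) _ _), mul_sub]
  have Fsh : ∀ (t : ℝ≥0) z, F (o t) z =
      cexp (z * (t : ℝ)) * (F (o 0) z + p z * Eint (u (o 0)) t z) :=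
    fun t z => Ftr_shift a s hs _ _ (hc _) (hrel _) t t.2 (hsh t) z
  have pne : ∀ z, ∀ᶠ w in 𝓝[≠] z, p w ≠ 0 := fun z => by
    have := pw_not_zero a s hs 1 (fun i => by simp) z
    rwa [Filter.not_frequently] at this
  have loc : ∀ z x, ∃ g : ℂ → ℂ, (∀ᶠ w in 𝓝 z, DifferentiableAt ℂ g w) ∧
      ∀ᶠ w in 𝓝 z, F x w = p w * g w := by
    intro z
    obtain ⟨m, q, qa, q0, hq⟩ := (pd.analyticAt z).exists_eventuallyEq_pow_smul_nonzero_iff.2
      fun h => pw_not_zero a s hs 1 (fun i => by simp) z (h.filter_mono nhdsWithin_le_nhds).frequently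
    have ind : ∀ k, k ≤ m → ∀ x, ∃ H : ℂ → ℂ, Differentiable ℂ H ∧ ∀ w, F x w = (w - z) ^ k * H w := by
      intro k
      induction k with
      | zero => exact fun _ x => ⟨F x, Fd x, fun w => by simp⟩
      | succ k ih =>
        intro hk
        choose H Hd HF using ih (by omega)
        have hne : ∀ᶠ w in 𝓝[≠] z, (w - z) ^ k ≠ 0 :=
          eventually_nhdsWithin_of_forall fun w hw => pow_ne_zero _ (sub_ne_zero.2 hw)
        have h0 : ∀ x, H x z = 0 := by
          refine kill o ho (fun x => H x z) (fun x y => ?_)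
            ((∑ i, ‖a i‖ * s i) * M * Real.exp ((‖z‖ + 1) * s j)) (fun x => ?_) z fun t => ?_
          · refine eq_at (K := fun w => H x w - H y w) (Hd _).continuous.continuousAt
              ((Hd x).continuous.sub (Hd y).continuous).continuousAt (hne.mono fun w hw => ?_)
            apply mul_left_cancel₀ hw
            rw [← HF, Fs, HF, HF, mul_sub]
          · refine norm_le_of_forall_mem_frontier_norm_le (U := Metric.ball z 1)
              Metric.isBounded_ball (Hd x).diffContOnCl (fun w hw => ?_)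
              (subset_closure (Metric.mem_ball_self one_pos))
            rw [frontier_ball z one_ne_zero, mem_sphere_iff_norm] at hw
            have b := Fb x w
            rw [HF, norm_mul, norm_pow, hw, one_pow, one_mul] at b
            refine b.trans ?_
            have b0 : 0 ≤ (∑ i, ‖a i‖ * s i) * (M * ‖x‖) :=
              mul_nonneg (Finset.sum_nonneg fun i _ => mul_nonneg (norm_nonneg _) (hs i).le)
                ((norm_nonneg _).trans (hb x 0 le_rfl (hs j).le))
            have b1 : Real.exp (max w.re 0 * s j) ≤ Real.exp ((‖z‖ + 1) * s j) := by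
              refine Real.exp_le_exp.2 (mul_le_mul_of_nonneg_right (max_le ?_ (by positivity)) (hs j).le)
              have := norm_le_norm_add_norm_sub' w z
              linarith [Complex.re_le_norm w]
            calc _ ≤ (∑ i, ‖a i‖ * s i) * (M * ‖x‖) * Real.exp ((‖z‖ + 1) * s j) :=
                  mul_le_mul_of_nonneg_left b1 b0
              _ = _ := by ring
          · have e := eq_at (H := H (o t)) (K := fun w => cexp (w * (t : ℝ)) *
                (H (o 0) w + (w - z) ^ (m - k) * q w * Eint (u (o 0)) t w))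
              (Hd _).continuous.continuousAt (by
                have b1 := (Hd (o 0)).continuous.continuousAt (x := z)
                have b2 := qa.continuousAt
                have b3 := (Eint_diff _ (hc (o 0)) t).continuous.continuousAt (x := z)
                fun_prop) ((hne.and (hq.filter_mono nhdsWithin_le_nhds)).mono fun w hw => by
                apply mul_left_cancel₀ hw.1
                have : (w - z) ^ m = (w - z) ^ k * (w - z) ^ (m - k) := by
                  rw [← pow_add]; congr 1; omega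
                rw [← HF, Fsh, HF, hw.2, smul_eq_mul, this]
                ring)
            rw [e, sub_self, zero_pow (by omega)]
            simp
        intro x
        refine ⟨dslope (H x) z, ?_, fun w => ?_⟩
        · rw [← differentiableOn_univ, differentiableOn_dslope univ_mem]
          exact (Hd x).differentiableOn
        · have := sub_smul_dslope (H x) z w
          rw [h0, sub_zero, smul_eq_mul] at this
          rw [HF, pow_succ, mul_assoc, this]
    intro x
    obtain ⟨H, Hd, HF⟩ := ind m le_rfl x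
    have qn : ∀ᶠ w in 𝓝 z, q w ≠ 0 := qa.continuousAt.eventually_ne q0
    refine ⟨fun w => H w / q w, ?_, ?_⟩
    · filter_upwards [qn, qa.eventually_analyticAt] with w h1 h2
      exact (Hd w).div h2.differentiableAt h1
    · filter_upwards [qn, hq] with w h1 h2
      rw [HF, h2, smul_eq_mul]
      field_simp
  have glob : ∀ x, ∃ c : ℂ, ∀ z, F x z = p z * c := by
    intro x
    choose g gd gF using fun z => loc z x
    have hG : ∀ z, (fun w => g w w) =ᶠ[𝓝 z] g z := by
      intro z
      have h1 : ∀ᶠ w in 𝓝[≠] z, g w w = g z w := by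
        filter_upwards [pne z, (gF z).filter_mono nhdsWithin_le_nhds] with w h1 h2
        apply mul_left_cancel₀ h1
        rw [← h2, (gF w).self_of_nhds]
      rw [eventually_nhdsWithin_iff] at h1
      refine h1.mono fun w hw => ?_
      by_cases h : w = z
      · rw [h]
      · exact hw h
    obtain ⟨c, hc'⟩ := quot_const a s hs j hj hmax (fun w => g w w)
      (fun z => ((gd z).self_of_nhds).congr_of_eventuallyEq (hG z)) _
      fun z => by rw [← hp, ← (gF z).self_of_nhds]; exact Fb x z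
    exact ⟨c, fun z => by rw [(gF z).self_of_nhds, hc']⟩
  choose c hcF using glob
  obtain ⟨R, -, hR⟩ := left_bound a s hs
  have form : ∀ l : ℝ, l ≤ -R → ∀ t : ℝ≥0,
      c (o t) = cexp ((l : ℂ) * (t : ℝ)) * (c (o 0) + Eint (u (o 0)) t l) := by
    intro l hl t
    have h1 : p l ≠ 0 := by
      intro h
      have := hR 1 (fun i => by simp) l (by simpa using hl)
      rw [← hp, h] at this
      norm_num at this
    apply mul_left_cancel₀ h1
    rw [← hcF, Fsh, hcF]
    ring
  have der : ∀ l : ℝ, l ≤ -R → ∀ t : ℝ, 0 < t →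
      HasDerivAt (fun r : ℝ => c (o r.toNNReal)) (l * c (o t.toNNReal) + u (o 0) t) t := by
    intro l hl t ht
    have hcc : Continuous fun r : ℝ => cexp (-(l : ℂ) * r) * u (o 0) r := by
      have := hc (o 0)
      fun_prop
    have d1 : HasDerivAt (fun r : ℝ => Eint (u (o 0)) r l) (cexp (-(l : ℂ) * t) * u (o 0) t) t :=
      (hcc.integral_hasStrictDerivAt 0 t).hasDerivAt
    have d2 : HasDerivAt (fun r : ℝ => cexp ((l : ℂ) * r)) (cexp ((l : ℂ) * t) * l) t := by
      have := ((hasDerivAt_id (t : ℂ)).const_mul (l : ℂ)).cexp.comp_ofReal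
      simpa using this
    have d3 := d2.mul (d1.const_add (c (o 0)))
    have e : ∀ r : ℝ, 0 < r → c (o r.toNNReal) =
        cexp ((l : ℂ) * r) * (c (o 0) + Eint (u (o 0)) r l) := fun r hr => by
      rw [form l hl, Real.coe_toNNReal r hr.le]
    refine (d3.congr_of_eventuallyEq ((eventually_gt_nhds ht).mono e)).congr_deriv ?_
    rw [e t ht, ← mul_assoc, ← Complex.exp_add]
    simp only [neg_mul, add_neg_cancel, Complex.exp_zero, one_mul]
    ring
  have c0 : ∀ t : ℝ, 0 < t → c (o t.toNNReal) = 0 := by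
    intro t ht
    have := (der (-R) le_rfl t ht).unique (der (-R - 1) (by linarith) t ht)
    push_cast at this
    linear_combination this
  have f0 : ∀ t : ℝ, 0 < t → u (o 0) t = 0 := by
    intro t ht
    have d1 := der (-R) le_rfl t ht
    have d2 : HasDerivAt (fun r : ℝ => c (o r.toNNReal)) 0 t :=
      (hasDerivAt_const t (0 : ℂ)).congr_of_eventuallyEq ((eventually_gt_nhds ht).mono c0)
    have := d1.unique d2
    rwa [c0 t ht, mul_zero, zero_add] at this
  have f1 : ∀ t : ℝ, 0 ≤ t → u (o 0) t = 0 := by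
    intro t ht
    rw [hrel _ t ht]
    exact Finset.sum_eq_zero fun i _ => by rw [f0 _ (by linarith [hs i]), mul_zero]
  intro x
  refine ho.induction_on (p := fun y => u y 0 = 0) x (isClosed_eq (sub_cont (fun y => u y 0)
    (fun x y => hsub x y 0) M fun x => hb x 0 le_rfl (hs j).le) continuous_const) fun t => ?_
  rw [hsh t 0 le_rfl]
  exact f1 _ (by simp)

noncomputable def emb {𝕜 : Type} [RCLike 𝕜] (k : 𝕜) : ℂ := ⟨RCLike.re k, RCLike.im k⟩

lemma emb_norm {𝕜 : Type} [RCLike 𝕜] (k : 𝕜) : ‖emb k‖ = ‖k‖ := by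
  rw [Complex.norm_eq_sqrt_sq_add_sq, ← RCLike.sqrt_normSq_eq_norm, RCLike.normSq_apply]
  simp [emb, sq]

noncomputable def embH (𝕜 : Type) [RCLike 𝕜] : 𝕜 →+* ℂ where
  toFun := emb
  map_one' := by apply Complex.ext <;> simp [emb]
  map_mul' := fun x y => by apply Complex.ext <;> simp [emb]
  map_zero' := by apply Complex.ext <;> simp [emb]
  map_add' := fun x y => by apply Complex.ext <;> simp [emb]

/-- The orbit of a hypercyclic vector of a strongly continuous semigroup on a nonzero real or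
complex Banach space is a linearly independent set. -/
theorem result (𝕜 X : Type) [RCLike 𝕜] [NormedAddCommGroup X] [NormedSpace 𝕜 X] [CompleteSpace X]
    [Nontrivial X] (T : ℝ≥0 → X →L[𝕜] X) (h0 : T 0 = ContinuousLinearMap.id 𝕜 X)
    (hadd : ∀ s t, T (s + t) = (T s).comp (T t)) (hcont : ∀ x, Continuous fun t => T t x)
    (z : X) (hz : Dense (Set.range fun t => T t z)) :
    LinearIndepOn 𝕜 id (Set.range fun t => T t z) := by
  classical
  rw [linearIndepOn_iff'']
  intro F g hF hg hsum v hv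
  by_contra hgv
  choose! τ hτ using fun w (hw : w ∈ (F : Set X)) => hF hw
  let G := F.filter fun w => g w ≠ 0
  have hGF : ∀ w ∈ G, w ∈ F := fun w hw => (Finset.mem_filter.1 hw).1
  have hsumG : ∑ w ∈ G, g w • w = 0 := by
    rw [← hsum]
    exact Finset.sum_filter_of_ne fun w _ h hw => h (by simp [hw])
  obtain ⟨w0, hw0, hmin⟩ := G.exists_min_image τ ⟨v, Finset.mem_filter.2 ⟨hv, hgv⟩⟩
  have g0 : g w0 ≠ 0 := (Finset.mem_filter.1 hw0).2
  have τinj : ∀ w ∈ G, ∀ w' ∈ G, τ w = τ w' → w = w' := fun w hw w' hw' h => by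
    rw [← hτ w (hGF w hw), ← hτ w' (hGF w' hw'), h]
  let B : X →L[𝕜] X := ∑ w ∈ G, g w • T (τ w - τ w0)
  have hB1 : ∀ t, τ w0 ≤ t → B (T t z) = 0 := by
    intro t ht
    have : B (T t z) = T (t - τ w0) (∑ w ∈ G, g w • w) := by
      simp only [B, sum_apply, smul_apply, map_sum, map_smul]
      refine Finset.sum_congr rfl fun w hw => ?_
      congr 1
      conv_rhs => rw [← hτ w (hGF w hw)]
      rw [← ContinuousLinearMap.comp_apply, ← ContinuousLinearMap.comp_apply, ← hadd, ← hadd,
        tsub_add_eq_add_tsub (hmin w hw), tsub_add_eq_add_tsub ht, add_comm]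
    rw [this, hsumG, map_zero]
  have hB : ∀ x, B x = 0 := by
    obtain ⟨C, hC⟩ := (isCompact_Icc (a := 0) (b := τ w0)).exists_bound_of_continuousOn
      (B.continuous.comp (hcont z)).continuousOn
    have h1 : ∀ y, ‖B y‖ ≤ max C 0 := by
      intro y
      refine DenseRange.induction_on (p := fun y => ‖B y‖ ≤ max C 0) hz y
        (isClosed_le B.continuous.norm continuous_const) fun t => ?_
      rcases le_total (τ w0) t with h | h
      · rw [hB1 t h, norm_zero]; exact le_max_right _ _
      · exact (hC t ⟨zero_le, h⟩).trans (le_max_left _ _)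
    intro x
    by_contra hx
    have hpos : 0 < ‖B x‖ := norm_pos_iff.2 hx
    obtain ⟨n, hn⟩ := exists_nat_gt (max C 0 / ‖B x‖)
    have h2 := h1 ((n : 𝕜) • x)
    rw [map_smul, norm_smul, RCLike.norm_natCast] at h2
    rw [div_lt_iff₀ hpos] at hn
    linarith
  have hid : ∀ x, x = ∑ w : G.erase w0, (-g w / g w0) • T (τ w - τ w0) x := by
    intro x
    have := hB x
    simp only [B, sum_apply, smul_apply] at this
    rw [← Finset.add_sum_erase _ _ hw0, tsub_self, h0, ContinuousLinearMap.id_apply] at this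
    rw [Finset.sum_coe_sort (G.erase w0) fun w => (-g w / g w0) • T (τ w - τ w0) x]
    apply smul_right_injective X g0
    simp only [Finset.smul_sum, smul_smul]
    rw [eq_neg_of_add_eq_zero_left this, ← Finset.sum_neg_distrib]
    refine Finset.sum_congr rfl fun w _ => ?_
    rw [← neg_smul]
    congr 1
    field_simp
  obtain ⟨x0, hx0⟩ := exists_ne (0 : X)
  by_cases hE : G.erase w0 = ∅
  · apply hx0
    rw [hid x0]
    exact Finset.sum_eq_zero fun w _ => absurd w.2 (by rw [Finset.eq_empty_iff_forall_notMem] at hE; exact hE _)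
  obtain ⟨w1, hw1, hmx⟩ := (G.erase w0).exists_max_image τ (Finset.nonempty_iff_ne_empty.2 hE)
  obtain ⟨φ, φn, hφ⟩ := exists_dual_vector 𝕜 x0 (norm_ne_zero_iff.2 hx0)
  obtain ⟨M, hM⟩ : ∃ M : ℝ, ∀ t : Set.Icc (0 : ℝ≥0) (τ w1 - τ w0), ‖T t‖ ≤ M := by
    refine banach_steinhaus fun x => ?_
    obtain ⟨C, hC⟩ := (isCompact_Icc (a := 0) (b := τ w1 - τ w0)).exists_bound_of_continuousOn
      (hcont x).continuousOn
    exact ⟨C, fun t => hC t t.2⟩
  have hlt : ∀ w : G.erase w0, τ w0 < τ w := fun w =>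
    lt_of_le_of_ne (hmin w (Finset.mem_of_mem_erase w.2))
      fun h => Finset.ne_of_mem_erase w.2 (τinj _ (Finset.mem_of_mem_erase w.2) _ hw0 h.symm)
  have hn : ∀ k : 𝕜, ‖embH 𝕜 k‖ = ‖k‖ := emb_norm
  have key := core (ι := G.erase w0) (fun w => embH 𝕜 (-g w / g w0))
    (fun w => ((τ w - τ w0 : ℝ≥0) : ℝ)) (fun w => by exact_mod_cast tsub_pos_of_lt (hlt w))
    ⟨w1, hw1⟩ (by
      rw [← norm_ne_zero_iff, hn, norm_ne_zero_iff]
      exact div_ne_zero (neg_ne_zero.2 (Finset.mem_filter.1 (Finset.mem_of_mem_erase hw1)).2) g0)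
    (fun w hw => by
      have : τ w < τ w1 := lt_of_le_of_ne (hmx w w.2) fun h => hw (Subtype.ext
        (τinj _ (Finset.mem_of_mem_erase w.2) _ (Finset.mem_of_mem_erase hw1) h))
      exact_mod_cast tsub_lt_tsub_right_of_le (hlt w).le this)
    (fun x r => embH 𝕜 (φ (T r.toNNReal x)))
    (fun x => (AddMonoidHomClass.continuous_of_bound (embH 𝕜) 1 fun k => by rw [hn, one_mul]).comp
      (φ.continuous.comp ((hcont x).comp continuous_real_toNNReal)))
    (fun x y r => by simp) M
    (fun x r h1 h2 => by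
      rw [hn]
      refine (φ.le_opNorm _).trans ?_
      rw [φn, one_mul]
      exact ((T _).le_opNorm x).trans (mul_le_mul_of_nonneg_right
        (hM ⟨r.toNNReal, zero_le, Real.toNNReal_le_iff_le_coe.2 h2⟩) (norm_nonneg _)))
    (fun x r hr => by
      conv_lhs => rw [hid x]
      simp only [map_sum, map_smul, smul_eq_mul, map_mul]
      refine Finset.sum_congr rfl fun w _ => ?_
      rw [Real.toNNReal_add hr (NNReal.coe_nonneg _), Real.toNNReal_coe, hadd]
      rfl)
    (fun t => T t z) hz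
    (fun t r hr => by
      rw [Real.toNNReal_add hr (NNReal.coe_nonneg _), Real.toNNReal_coe, hadd, h0]
      rfl) x0
  simp only [Real.toNNReal_zero, h0, ContinuousLinearMap.id_apply] at key
  rw [← norm_eq_zero, hn, hφ] at key
  exact hx0 (by simpa using key)

end Pool.Agent.Results.MP_84e5ad_an.OrbitIndependent
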